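import Pool.Agent.V11146.MK.Transfer

/-!
# The joint law of the residues and the distances: the abstract step
-/

set_option autoImplicit false

namespace Pool.Agent.Helper32K9.Joint

open Finset Filter
open Pool.Agent.TH464.PO Pool.Agent.V11146.MK

lemma av_Fp_zero (cl : Finset ℕ) (β : List ℕ) (n : ℕ) (hn : n < β.length) : av cl n (Fp β) = 0 := by
  unfold av
  rw [Finset.sum_eq_zero, zero_div]
  intro t ht
  unfold V11146.MK.Fp
  rw [if_neg]
  intro h
  have h1 := pre_length β t h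
  have h2 := ((mem_Ls _ _ _).1 ht).1
  omega

open Classical in
/-- **The joint law of the number of the marks and their first values.** -/
theorem joint_abs (A m : ℕ) (hA : 1 ≤ A) (x0 ε : ℝ) (hx0 : 0 ≤ x0) (hε : 0 < ε) :
    ∃ (J : ℕ) (η : ℝ), 0 < η ∧
    ∀ (Om : Finset ℕ) (Ω : ℕ → Finset ℕ) (ρ : ℕ → ℕ → ℕ) (cl : Finset ℕ) (N x : ℝ), 0 ≤ N →
      cl.card = A → (∀ g ∈ Om, ∀ h ∈ Ω g, ρ g h ∈ cl) → 0 ≤ x → x ≤ x0 →
      (∀ j ≤ J, ∀ t ∈ Ls cl j,
        |∑ g ∈ Om, (cnt (ρ g) (Ω g) t : ℝ) - N * (x ^ j / j.factorial / (A : ℝ) ^ j)| ≤ η * N) →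
      ∀ β ∈ Ls cl m,
        |((Om.filter (fun g => pre β (res (ρ g) (Ω g)) = true)).card : ℝ) - N * (1 - Ck m x) / (A : ℝ) ^ m| ≤
          ε * N := by
  have hA0 : (0 : ℝ) < A := by exact_mod_cast hA
  have hA1 : (1 : ℝ) ≤ A := by exact_mod_cast hA
  obtain ⟨e, he⟩ : ∃ e : ℝ, e = min (ε / 16) 1 := ⟨_, rfl⟩
  have he0 : 0 < e := by rw [he]; positivity
  have heε : e ≤ ε / 16 := by rw [he]; exact min_le_left _ _
  have he1 : e ≤ 1 := by rw [he]; exact min_le_right _ _
  obtain ⟨R, η1, hη1, htv⟩ := law_tv x0 e hx0 he0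
  obtain ⟨J, η2, hη2, hdiff⟩ := diff_abs A hA x0 e hx0 he0
  obtain ⟨E, hE⟩ : ∃ E : ℝ, E = (A : ℝ) ^ R + Real.exp x0 := ⟨_, rfl⟩
  have hE0 : 0 < E := by rw [hE]; positivity
  refine ⟨J + R, min (min η2 (η1 / (2 * E))) (min e (1 / 2)), by positivity, ?_⟩
  intro Om Ω ρ cl N x hN hcl hΩ hx hxx hmom β hβ
  obtain ⟨η, hη⟩ : ∃ η : ℝ, η = min (min η2 (η1 / (2 * E))) (min e (1 / 2)) := ⟨_, rfl⟩
  rw [← hη] at hmom
  have hη0 : 0 < η := by rw [hη]; positivity
  have hηa : η ≤ η2 := by rw [hη]; exact (min_le_left _ _).trans (min_le_left _ _)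
  have hηb : η ≤ η1 / (2 * E) := by rw [hη]; exact (min_le_left _ _).trans (min_le_right _ _)
  have hηc : η ≤ e := by rw [hη]; exact (min_le_right _ _).trans (min_le_left _ _)
  have hηd : η ≤ 1 / 2 := by rw [hη]; exact (min_le_right _ _).trans (min_le_right _ _)
  have hηE : η * E ≤ η1 / 2 := by
    rw [le_div_iff₀ (by positivity)] at hηb
    linarith
  have hcln : cl.Nonempty := by
    rw [← Finset.card_pos, hcl]
    omega
  have hOm : |(Om.card : ℝ) - N| ≤ η * N := by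
    have := hmom 0 (by omega) [] (by simp [Ls])
    simpa [cnt_nil] using this
  have hOm2 : N ≤ 2 * Om.card := by
    have := (abs_le.1 hOm).1
    nlinarith
  have hOm3 : (Om.card : ℝ) ≤ 2 * N := by
    have := (abs_le.1 hOm).2
    nlinarith
  have hOm0 : (0 : ℝ) ≤ Om.card := Nat.cast_nonneg _
  have hlaw := htv Om (fun g => (Ω g).card) x hx hxx (by
    intro k hk
    have h1 := card_moment A Om Ω ρ cl N x η hcl hA hΩ k (hmom k (by omega))
    have h2 : x ^ k / (k.factorial : ℝ) ≤ Real.exp x0 :=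
      (Real.pow_div_factorial_le_exp x hx k).trans (Real.exp_le_exp.2 hxx)
    have h20 : 0 ≤ x ^ k / (k.factorial : ℝ) := by positivity
    have h3 : (A : ℝ) ^ k ≤ (A : ℝ) ^ R := pow_le_pow_right₀ hA1 hk
    have h4 : |N * (x ^ k / (k.factorial : ℝ)) - Om.card * (x ^ k / (k.factorial : ℝ))| ≤
        Real.exp x0 * (η * N) := by
      rw [← sub_mul, abs_mul, abs_of_nonneg h20, abs_sub_comm, mul_comm]
      exact mul_le_mul h2 hOm (abs_nonneg _) (Real.exp_pos _).le
    have h5 : (A : ℝ) ^ k * (η * N) ≤ (A : ℝ) ^ R * (η * N) := by gcongr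
    have h6 := abs_sub_le (∑ g ∈ Om, ((Ω g).card.choose k : ℝ)) (N * (x ^ k / (k.factorial : ℝ)))
      (Om.card * (x ^ k / (k.factorial : ℝ)))
    have h7 : E * (η * N) ≤ η1 * Om.card := by
      calc E * (η * N) = (η * E) * N := by ring
        _ ≤ η1 / 2 * (2 * Om.card) := by gcongr
        _ = η1 * Om.card := by ring
    rw [hE] at h7
    linarith) (range m)
  have hC : ∑ j ∈ range m, Real.exp (-x) * x ^ j / (j.factorial : ℝ) = Ck m x := rfl
  rw [hC] at hlaw
  have hC0 := Ck_nonneg m x hx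
  have hC1 := Ck_le_one m x hx
  have hsmall : Om.filter (fun g => (Ω g).card ∈ range m) = Om.filter (fun g => (Ω g).card < m) := by
    apply Finset.filter_congr
    intro g _
    rw [mem_range]
  rw [hsmall] at hlaw
  have hlen := (mem_Ls cl m β).1 hβ
  have hd := hdiff Om Ω ρ cl N x hN hcl hΩ hx hxx (fun j hj t ht =>
    (hmom j (by omega) t ht).trans (by gcongr)) (Fp β) (Fp_bound β)
  have hsum1 : ∑ g ∈ Om, Fp β (res (ρ g) (Ω g)) =
      ((Om.filter (fun g => pre β (res (ρ g) (Ω g)) = true)).card : ℝ) := by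
    unfold V11146.MK.Fp
    rw [Finset.sum_ite, Finset.sum_const_zero, add_zero, Finset.sum_const, nsmul_eq_mul, mul_one]
  have hsum2 : ∑ g ∈ Om, av cl (Ω g).card (Fp β) =
      ((Om.card : ℝ) - (Om.filter (fun g => (Ω g).card < m)).card) / (A : ℝ) ^ m := by
    have h1 : ∀ g ∈ Om, av cl (Ω g).card (Fp β) = if (Ω g).card < m then 0 else 1 / (A : ℝ) ^ m := by
      intro g _
      split_ifs with h
      · exact av_Fp_zero cl β _ (by rw [hlen.1]; exact h)
      · rw [not_lt] at h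
        rw [av_Fp cl hcln β hlen.2 (Ω g).card (by rw [hlen.1]; exact h), hcl, hlen.1]
    have h2 : (Om.filter (fun g => (Ω g).card < m)).card + (Om.filter (fun g => ¬ (Ω g).card < m)).card = Om.card :=
      Finset.card_filter_add_card_filter_not _
    have h3 : ((Om.filter (fun g => (Ω g).card < m)).card : ℝ) + (Om.filter (fun g => ¬ (Ω g).card < m)).card =
        Om.card := by exact_mod_cast h2
    rw [Finset.sum_congr rfl h1, Finset.sum_ite, Finset.sum_const_zero, zero_add, Finset.sum_const, nsmul_eq_mul]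
    rw [← h3]
    ring
  have hApow : (1 : ℝ) ≤ (A : ℝ) ^ m := one_le_pow₀ hA1
  have hApos : (0 : ℝ) < (A : ℝ) ^ m := by positivity
  have h4 : |∑ g ∈ Om, av cl (Ω g).card (Fp β) - Om.card * (1 - Ck m x) / (A : ℝ) ^ m| ≤ e * Om.card := by
    rw [hsum2, ← sub_div, abs_div, abs_of_pos hApos, div_le_iff₀ hApos]
    have h5 : (Om.card : ℝ) - (Om.filter (fun g => (Ω g).card < m)).card - Om.card * (1 - Ck m x) =
        -(((Om.filter (fun g => (Ω g).card < m)).card : ℝ) - Om.card * Ck m x) := by ring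
    rw [h5, abs_neg]
    refine hlaw.trans ?_
    have : 0 ≤ e * (Om.card : ℝ) := by positivity
    nlinarith
  have h5 : |Om.card * (1 - Ck m x) / (A : ℝ) ^ m - N * (1 - Ck m x) / (A : ℝ) ^ m| ≤ η * N := by
    rw [← sub_div, abs_div, abs_of_pos hApos, div_le_iff₀ hApos, ← sub_mul, abs_mul,
      abs_of_nonneg (by linarith : 0 ≤ 1 - Ck m x)]
    have h6 : |(Om.card : ℝ) - N| * (1 - Ck m x) ≤ η * N * 1 :=
      mul_le_mul hOm (by linarith) (by linarith) (by positivity)
    have : 0 ≤ η * N := by positivity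
    nlinarith
  rw [Finset.sum_sub_distrib, hsum1] at hd
  have h11 : e * (Om.card : ℝ) ≤ 2 * e * N := by nlinarith
  have h12 : η * N ≤ e * N := by gcongr
  have h13 : 16 * (e * N) ≤ ε * N := by
    have := mul_le_mul_of_nonneg_right heε hN
    linarith
  have h14 : 0 ≤ e * N := by positivity
  rw [abs_le] at hd h4 h5 ⊢
  constructor <;> linarith [hd.1, hd.2, h4.1, h4.2, h5.1, h5.2]

end Pool.Agent.Helper32K9.Joint
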