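import Pool.Agent.Helper32K9.Joint.Win

/-!
# The joint law of the residues and the distances for sifted integers
-/

set_option autoImplicit false

namespace Pool.Agent.Helper32K9.Joint

open Finset Filter
open Pool.Agent.W123.RP Pool.Agent.H373R2.T7 Pool.Agent.W123.RU Pool.Agent.TH464.PO
open Pool.Agent.Y879.PR Pool.Agent.V11146.MK

open Classical in
/-- **Residue patterns inside windows.** -/
theorem gen_joint (c l A m : ℕ) (hl : l.Prime) (hA : 1 ≤ A) (κ x0 ε : ℝ) (hκ : 0 < κ) (hκx : κ ≤ x0) (hε : 0 < ε) :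
    ∃ (K0 y0 T0 R0 : ℕ) (η' : ℝ), 0 < η' ∧
      ∀ (Q : ℕ → ℕ → Prop) (Z Y y : ℕ), PerB Q c → (∀ p : ℕ, p.Prime → nuB Q p < p) →
      (cls Q l).card = A → y0 ≤ y → y ^ K0 ≤ Y →
      (∀ T : ℕ, κ / 2 ≤ T * Vq Q y → T * Vq Q y ≤ 2 * x0 → T0 ≤ T ∧ T ^ R0 ≤ Y ∧ ∀ t ∈ Icc 1 T,
        ((((pz y).filter (fun p : ℕ => T < p ∧ CoG Q p t)).card : ℕ) : ℝ) ≤ η' * T) →
      ∀ T : ℕ, κ ≤ T * Vq Q y → T * Vq Q y ≤ x0 → ∀ a ∈ cls Q l, ∀ β ∈ Ls (cls Q l) m,
        |(((Oa Q l a y Z Y).filter (fun g => PatW (Sf Q y) (fun n => n % l) (g + T) β g)).card : ℝ) -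
          Y * Vq Q y * (1 - Ck m (T * Vq Q y)) / (A : ℝ) ^ (m + 1)| ≤ ε * (Y * Vq Q y) := by
  have hA1 : (1 : ℝ) ≤ A := by exact_mod_cast hA
  have hA0 : (0 : ℝ) < A := by linarith
  have hx00 : 0 ≤ x0 := by linarith
  obtain ⟨J, η, hη, habs⟩ := joint_abs A m hA x0 ε hx00 hε
  obtain ⟨E, hE⟩ : ∃ E : ℝ, E = Real.exp x0 := ⟨_, rfl⟩
  have hE0 : 0 < E := by rw [hE]; exact Real.exp_pos _
  obtain ⟨η2, hη2⟩ : ∃ η2 : ℝ, η2 = min 1 (η / (2 * A * E)) := ⟨_, rfl⟩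
  have hη20 : 0 < η2 := by rw [hη2]; positivity
  have hη21 : η2 ≤ 1 := by rw [hη2]; exact min_le_left _ _
  have hη22 : η2 * E ≤ η / 2 / A := by
    have : η2 ≤ η / (2 * A * E) := by rw [hη2]; exact min_le_right _ _
    rw [le_div_iff₀ (by positivity)] at this
    rw [le_div_iff₀ hA0]
    linarith
  choose K0 y0 T0 η' hη' hly hmom using fun j => mark_count c j l hl η2 hη20 hη21
  obtain ⟨η0, hη00, hη0⟩ := exists_lower η' hη' (J + 1)
  obtain ⟨T1, hT1⟩ : ∃ T1 : ℕ, 2 * A / (κ * η) ≤ T1 := exists_nat_ge _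
  refine ⟨(∑ k ∈ range (J + 1), K0 k) + 1, (∑ k ∈ range (J + 1), y0 k) + 1,
    (∑ k ∈ range (J + 1), T0 k) + T1 + 1, 2 * (J + 2), η0, hη00, ?_⟩
  intro Q Z Y y hQ hadm hcls hy hyY hT T hTa hTb a ha β hβ
  have hV0 : 0 < Vq Q y := Vq_pos Q hadm y
  have hV1 : Vq Q y ≤ 1 := Vq_le_one Q y
  obtain ⟨V, hV⟩ : ∃ V, V = Vq Q y := ⟨_, rfl⟩
  rw [← hV] at hT hV0 hV1 hTa hTb ⊢
  obtain ⟨hT0, hTR, hlarge⟩ := hT T (by linarith) (by linarith)
  have hlarge2 : ∀ T' : ℕ, T ≤ 2 * T' → T' ≤ 2 * T → ∀ t ∈ Icc 1 T',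
      ((((pz y).filter (fun p : ℕ => T' < p ∧ CoG Q p t)).card : ℕ) : ℝ) ≤ η0 * T' := by
    intro T' h1 h2
    have h1' : (T : ℝ) ≤ 2 * T' := by exact_mod_cast h1
    have h2' : (T' : ℝ) ≤ 2 * T := by exact_mod_cast h2
    have h3 : (T : ℝ) * V ≤ 2 * T' * V := by gcongr
    have h4 : (T' : ℝ) * V ≤ 2 * T * V := by gcongr
    exact (hT T' (by linarith) (by linarith)).2.2
  have hTpos : (0 : ℝ) < T := by
    by_contra hcon
    rw [not_lt] at hcon
    nlinarith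
  have hT1' : 1 ≤ T := by exact_mod_cast hTpos
  have hTr1 : (1 : ℝ) ≤ T := by exact_mod_cast hT1'
  have hy1 : 1 ≤ y := by omega
  have hlyy : l ≤ y := by
    have h1 : y0 0 ≤ ∑ k ∈ range (J + 1), y0 k := Finset.single_le_sum (fun _ _ => Nat.zero_le _)
      (mem_range.2 (by omega))
    have := hly 0
    omega
  have hY0 : (0 : ℝ) ≤ Y := Nat.cast_nonneg Y
  obtain ⟨N, hN⟩ : ∃ N : ℝ, N = Y * V / A := ⟨_, rfl⟩
  have hN0 : 0 ≤ N := by rw [hN]; positivity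
  have hTY : (T : ℝ) ^ J * √(Y : ℝ) ≤ η / 2 * N := by
    have h1 : (T : ℝ) ^ (J + 2) ≤ √(Y : ℝ) := by
      apply Real.le_sqrt_of_sq_le
      have : ((T ^ (2 * (J + 2)) : ℕ) : ℝ) ≤ Y := by exact_mod_cast hTR
      push_cast at this
      calc ((T : ℝ) ^ (J + 2)) ^ 2 = (T : ℝ) ^ (2 * (J + 2)) := by rw [← pow_mul]; ring_nf
        _ ≤ Y := this
    have h2 : 1 ≤ (T : ℝ) * V / κ := by rw [le_div_iff₀ hκ]; linarith
    have h3 : 1 ≤ (T : ℝ) * (κ * η / (2 * A)) := by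
      have h4 : 2 * A / (κ * η) ≤ T := hT1.trans (by exact_mod_cast (by omega : T1 ≤ T))
      rw [div_le_iff₀ (by positivity)] at h4
      rw [mul_div_assoc', le_div_iff₀ (by positivity)]
      linarith
    have hsY : √(Y : ℝ) * √(Y : ℝ) = Y := Real.mul_self_sqrt hY0
    have hs0 := Real.sqrt_nonneg (Y : ℝ)
    calc (T : ℝ) ^ J * √(Y : ℝ) = (T : ℝ) ^ J * √(Y : ℝ) * (1 * 1) := by ring
      _ ≤ (T : ℝ) ^ J * √(Y : ℝ) * ((T * V / κ) * (T * (κ * η / (2 * A)))) := by gcongr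
      _ = (T : ℝ) ^ (J + 2) * √(Y : ℝ) * (V * (η / (2 * A))) := by
          rw [pow_add]
          field_simp
      _ ≤ √(Y : ℝ) * √(Y : ℝ) * (V * (η / (2 * A))) := by gcongr
      _ = η / 2 * N := by
          rw [hsY, hN]
          field_simp
  have hΩ : ∀ g ∈ Oa Q l a y Z Y, ∀ h ∈ Og Q y T g, (g + h) % l ∈ cls Q l := by
    intro g _ h hh
    unfold Og at hh
    rw [mem_filter] at hh
    exact mod_mem_cls Q c hQ l y (g + h) hl hlyy hh.2
  have hmain := habs (Oa Q l a y Z Y) (Og Q y T) (fun g h => (g + h) % l) (cls Q l) N (T * V) hN0 hcls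
    hΩ (by positivity) hTb (by
      intro j hj t ht
      have hjr : j ∈ range (J + 1) := mem_range.2 (by omega)
      have hKk : K0 j ≤ ∑ k ∈ range (J + 1), K0 k := Finset.single_le_sum (fun _ _ => Nat.zero_le _) hjr
      have hyk : y0 j ≤ ∑ k ∈ range (J + 1), y0 k := Finset.single_le_sum (fun _ _ => Nat.zero_le _) hjr
      have hTk : T0 j ≤ ∑ k ∈ range (J + 1), T0 k := Finset.single_le_sum (fun _ _ => Nat.zero_le _) hjr
      have h1 := hmom j Z Y y T (by omega) ((Nat.pow_le_pow_right hy1 (by omega)).trans hyY) (by omega)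
        Q hQ hadm (fun T' h1 h2 t ht => (hlarge2 T' h1 h2 t ht).trans
          (mul_le_mul_of_nonneg_right (hη0 j (by omega)) (Nat.cast_nonneg _))) a ha t ht
      rw [← hV, hcls] at h1
      have e1 : Y * (V * ((T * V) ^ j / j.factorial) / (A : ℝ) ^ (j + 1)) =
          N * ((T * V) ^ j / j.factorial / (A : ℝ) ^ j) := by
        rw [hN, pow_succ]
        field_simp
      rw [e1] at h1
      refine h1.trans ?_
      have h2 : ((T : ℝ) * V) ^ j / (j.factorial : ℝ) ≤ E := by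
        rw [hE]
        exact (Real.pow_div_factorial_le_exp _ (by positivity) j).trans (Real.exp_le_exp.2 hTb)
      have h3 : η2 * (Y * (V * ((T * V) ^ j / j.factorial))) ≤ η / 2 * N := by
        calc η2 * (Y * (V * ((T * V) ^ j / j.factorial))) ≤ η2 * (Y * (V * E)) := by gcongr
          _ = (η2 * E) * (Y * V) := by ring
          _ ≤ (η / 2 / A) * (Y * V) := by gcongr
          _ = η / 2 * N := by rw [hN]; ring
      have h4 : (T : ℝ) ^ j * √(Y : ℝ) ≤ (T : ℝ) ^ J * √(Y : ℝ) := by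
        apply mul_le_mul_of_nonneg_right _ (Real.sqrt_nonneg _)
        exact pow_le_pow_right₀ hTr1 hj
      linarith) β hβ
  have hI : ∀ g, Og Q y T g = (Ioc 0 T).filter (fun h => Sf Q y (g + h)) := by
    intro g
    unfold Og
    congr 1
  have hset : (Oa Q l a y Z Y).filter (fun g => pre β (res (fun h => (g + h) % l) (Og Q y T g)) = true) =
      (Oa Q l a y Z Y).filter (fun g => PatW (Sf Q y) (fun n => n % l) (g + T) β g) := by
    apply Finset.filter_congr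
    intro g _
    rw [hI]
    exact pre_iff_patW (Sf Q y) l β g T
  rw [hset] at hmain
  have h5 : Y * V * (1 - Ck m (T * V)) / (A : ℝ) ^ (m + 1) = N * (1 - Ck m (T * V)) / (A : ℝ) ^ m := by
    rw [hN, pow_succ]
    field_simp
  have h6 : N ≤ Y * V := by
    rw [hN]
    exact div_le_self (by positivity) hA1
  have h7 : ε * N ≤ ε * (Y * V) := by gcongr
  rw [h5]
  exact hmain.trans h7

end Pool.Agent.Helper32K9.Joint
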