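import Pool.Agent.Helper32K9.Joint.Gen

/-!
# The joint law of the residues and the distances for systems of polynomials
-/

set_option autoImplicit false

namespace Pool.Agent.Helper32K9.Joint

open Polynomial Finset Filter
open Pool.Agent.W123.RP Pool.Agent.H373R2.T7 Pool.Agent.W123.RU Pool.Agent.W123.RU.Poly
open Pool.Agent.TH464.PW Pool.Agent.TH464.PO Pool.Agent.V11146.MK

lemma patW_mono {S : ℕ → Prop} {κ : ℕ → ℕ} {U U' : ℕ} (hU : U ≤ U') (β : List ℕ) (g : ℕ)
    (h : PatW S κ U β g) : PatW S κ U' β g := by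
  induction β generalizing g with
  | nil => trivial
  | cons b β ih =>
    obtain ⟨g', h1, h2, h3, h4, h5, h6⟩ := h
    exact ⟨g', h1, h2.trans hU, h3, h4, h5, ih g' h6⟩

lemma pat_of_patW {G : ℕ → Prop} {l U : ℕ} (β : List ℕ) (g : ℕ)
    (h : PatW G (fun n => n % l) U β g) : Pat G l β g := by
  induction β generalizing g with
  | nil => trivial
  | cons b β ih =>
    obtain ⟨g', h1, _, h3, h4, h5, h6⟩ := h
    exact ⟨g', h1, h3, h4, h5, ih g' h6⟩

lemma one_sub_Ck_le (m : ℕ) (hm : 1 ≤ m) (x : ℝ) (hx : 0 ≤ x) : 1 - Ck m x ≤ x := by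
  have h1 := Ck_mono_k 1 m hm x hx
  have h2 : Ck 1 x = Real.exp (-x) := by
    unfold Ck pw
    simp
  have h3 := Real.add_one_le_exp (-x)
  linarith

variable {ι : Type} [Fintype ι]

/-- the density tends to zero -/
lemma V_small [Nonempty ι] (f : ι → ℤ[X]) (hf : Sys f) (e : ℝ) (he : 0 < e) : ∃ y₀ : ℕ, ∀ y : ℕ, y₀ ≤ y → Vq (Q f) y ≤ e := by
  obtain ⟨v, Cv, hv, hCv, hV⟩ := V_bounds f hf
  have hk1 : 1 ≤ Fintype.card ι := Fintype.card_pos
  have hlogX : Tendsto (fun X : ℕ => Real.log (X : ℝ)) atTop atTop :=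
    Real.tendsto_log_atTop.comp tendsto_natCast_atTop_atTop
  obtain ⟨y₀, h⟩ := Filter.eventually_atTop.1 ((hlogX.eventually_ge_atTop (1 + Cv / e)).and (eventually_ge_atTop 3))
  refine ⟨y₀, fun y hy => ?_⟩
  obtain ⟨h1, h2⟩ := h y hy
  have h3 := (hV y h2).2
  refine h3.trans ?_
  have h0 : 0 ≤ Cv / e := by positivity
  have h4 : 1 ≤ Real.log y := by linarith
  have h5 : Real.log y ≤ Real.log y ^ (Fintype.card ι) := by
    calc Real.log y = Real.log y ^ 1 := (pow_one _).symm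
      _ ≤ Real.log y ^ (Fintype.card ι) := pow_le_pow_right₀ h4 hk1
  rw [div_le_iff₀ (by positivity)]
  have h6 : Cv / e ≤ Real.log y ^ (Fintype.card ι) := by linarith
  rw [div_le_iff₀ he] at h6
  linarith

open Classical in
/-- **Residue patterns inside windows of all lengths.** -/
theorem poly_joint [Nonempty ι] (f : ι → ℤ[X]) (hf : Sys f) (hT : NoTr f) (l m : ℕ) (hl : l.Prime) (hm : 1 ≤ m)
    (ε : ℝ) (hε : 0 < ε) :
    ∃ K y0 : ℕ, ∀ y : ℕ, y0 ≤ y → ∀ Z Y : ℕ, y ^ K ≤ Y → ∀ T : ℕ,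
      ∀ a ∈ cls (Q f) l, ∀ β ∈ Ls (cls (Q f) l) m,
        |(((Oa (Q f) l a y Z Y).filter (fun g => PatW (Sf (Q f) y) (fun n => n % l) (g + T) β g)).card : ℝ) -
          Y * Vq (Q f) y * (1 - Ck m (T * Vq (Q f) y)) / ((cls (Q f) l).card : ℝ) ^ (m + 1)| ≤
            ε * (Y * Vq (Q f) y) := by
  obtain ⟨c, hc, hQ⟩ := exists_c f hf
  have hA : 1 ≤ (cls (Q f) l).card := by
    have h1 := card_cls (Q f) l
    have h2 := Poly.adm f hf l hl
    omega
  obtain ⟨e, he⟩ : ∃ e : ℝ, e = min (ε / 4) 1 := ⟨_, rfl⟩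
  have he0 : 0 < e := by rw [he]; positivity
  have heε : e ≤ ε / 4 := by rw [he]; exact min_le_left _ _
  have he1 : e ≤ 1 := by rw [he]; exact min_le_right _ _
  obtain ⟨x1, hx1a, hx1b⟩ := (((Ck_tendsto m).eventually (gt_mem_nhds he0)).and
    (eventually_ge_atTop 1)).exists
  obtain ⟨K0, y0, T0, R0, η', hη', hgen⟩ := gen_joint c l (cls (Q f) l).card m hl hA e (x1 + 1) e he0 (by linarith) he0
  obtain ⟨y1, h1⟩ := sizes_y f hf hT T0 R0 η' (e / 2) (2 * (x1 + 1)) hη' (by positivity) (by linarith)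
  obtain ⟨K2, y2, h2⟩ := poly_pat_y f hf hT l m hl e he0
  obtain ⟨y3, h3⟩ := V_small f hf e he0
  refine ⟨K0 + K2 + 1, y0 + y1 + y2 + y3 + 1, ?_⟩
  intro y hy Z Y hyY T a ha β hβ
  have hy1 : 1 ≤ y := by omega
  have hyY1 : y ≤ Y := by
    calc y = y ^ 1 := (pow_one y).symm
      _ ≤ y ^ (K0 + K2 + 1) := Nat.pow_le_pow_right hy1 (by omega)
      _ ≤ Y := hyY
  have hdir := hgen (Q f) Z Y y hQ (fun p hp => Poly.adm f hf p hp) rfl (by omega)
    ((Nat.pow_le_pow_right hy1 (by omega)).trans hyY) (fun T h2 h3 => by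
      obtain ⟨h4, h5, h6⟩ := h1 y (by omega) T h2 h3
      exact ⟨h4, h5.trans hyY1, h6⟩)
  have hpat := h2 y (by omega) Z Y ((Nat.pow_le_pow_right hy1 (by omega)).trans hyY) a ha β hβ
  have hVe := h3 y (by omega)
  have hV0 : 0 < Vq (Q f) y := Vq_pos (Q f) (fun p hp => Poly.adm f hf p hp) y
  obtain ⟨V, hV⟩ : ∃ V, V = Vq (Q f) y := ⟨_, rfl⟩
  rw [← hV] at hdir hpat hVe hV0 ⊢
  obtain ⟨A, hAdef⟩ : ∃ A : ℝ, A = ((cls (Q f) l).card : ℝ) ^ (m + 1) := ⟨_, rfl⟩
  rw [← hAdef] at hpat ⊢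
  have hA1 : 1 ≤ A := by
    rw [hAdef]
    exact one_le_pow₀ (by exact_mod_cast hA)
  obtain ⟨B, hB⟩ : ∃ B : ℝ, B = Y * V := ⟨_, rfl⟩
  rw [← hB] at hpat ⊢
  have hB0 : 0 ≤ B := by rw [hB]; positivity
  obtain ⟨cnt', hcnt⟩ : ∃ cnt' : ℕ → ℝ, cnt' = fun T : ℕ =>
    (((Oa (Q f) l a y Z Y).filter (fun g => PatW (Sf (Q f) y) (fun n => n % l) (g + T) β g)).card : ℝ) := ⟨_, rfl⟩
  have hdir' : ∀ T : ℕ, e ≤ T * V → T * V ≤ x1 + 1 → |cnt' T - B * (1 - Ck m (T * V)) / A| ≤ e * B := by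
    intro T k1 k2
    have := hdir T k1 k2 a ha β hβ
    rw [← hAdef, ← hB] at this
    rw [hcnt]
    exact this
  have hmono : ∀ T T' : ℕ, T ≤ T' → cnt' T ≤ cnt' T' := by
    intro T T' hTT
    rw [hcnt]
    apply Nat.cast_le.2
    apply card_le_card
    intro g hg
    rw [mem_filter] at hg ⊢
    exact ⟨hg.1, patW_mono (by omega) β g hg.2⟩
  have hle : ∀ T : ℕ, cnt' T ≤ (((Oa (Q f) l a y Z Y).filter (fun g => Pat (Sf (Q f) y) l β g)).card : ℝ) := by
    intro T
    rw [hcnt]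
    apply Nat.cast_le.2
    apply card_le_card
    intro g hg
    rw [mem_filter] at hg ⊢
    exact ⟨hg.1, pat_of_patW β g hg.2⟩
  have hnn : ∀ T : ℕ, 0 ≤ cnt' T := by
    intro T
    rw [hcnt]
    exact Nat.cast_nonneg _
  have goal' : |cnt' T - B * (1 - Ck m (T * V)) / A| ≤ ε * B := by
    have hTV0 : 0 ≤ (T : ℝ) * V := by positivity
    have heB : 4 * (e * B) ≤ ε * B := by
      have := mul_le_mul_of_nonneg_right heε hB0
      linarith
    have heB0 : 0 ≤ e * B := by positivity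
    have hdivA : ∀ w : ℝ, 0 ≤ w → B * w / A ≤ B * w := fun w hw => div_le_self (by positivity) hA1
    have hCk0 := Ck_nonneg m (T * V) hTV0
    have hCk1 := Ck_le_one m (T * V) hTV0
    rcases lt_or_ge ((T : ℝ) * V) e with hc1 | hc1
    · -- short windows
      obtain ⟨T2, hT2⟩ : ∃ T2 : ℕ, T2 = ⌈e / V⌉₊ := ⟨_, rfl⟩
      have k1 : e ≤ T2 * V := by
        have := Nat.le_ceil (e / V)
        rw [← hT2, div_le_iff₀ hV0] at this
        exact this
      have k2 : T2 * V ≤ e + V := by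
        have h1 := Nat.ceil_lt_add_one (show 0 ≤ e / V by positivity)
        rw [← hT2] at h1
        have h2 : (T2 : ℝ) * V ≤ (e / V + 1) * V := by gcongr
        rw [add_mul, div_mul_cancel₀ _ hV0.ne'] at h2
        linarith
      have hTT2 : T ≤ T2 := by
        have : (T : ℝ) * V < T2 * V := by linarith
        have := lt_of_mul_lt_mul_right this hV0.le
        exact_mod_cast this.le
      have k3 := (abs_le.1 (hdir' T2 k1 (by linarith))).2
      have k4 := hmono T T2 hTT2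
      have k5 := one_sub_Ck_le m hm (T2 * V) (by linarith)
      have k6 : B * (1 - Ck m (T2 * V)) / A ≤ B * (2 * e) := by
        have hh := Ck_le_one m (T2 * V) (by linarith)
        refine (hdivA _ (by linarith)).trans ?_
        apply mul_le_mul_of_nonneg_left _ hB0
        linarith
      have k7 : B * (1 - Ck m (T * V)) / A ≤ B * e := by
        refine (hdivA _ (by linarith)).trans ?_
        apply mul_le_mul_of_nonneg_left _ hB0
        have := one_sub_Ck_le m hm (T * V) hTV0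
        linarith
      have k8 : 0 ≤ B * (1 - Ck m (T * V)) / A := div_nonneg (mul_nonneg hB0 (by linarith)) (by linarith)
      have k9 := hnn T
      rw [abs_le]
      constructor <;> nlinarith
    · rcases le_or_gt ((T : ℝ) * V) (x1 + 1) with hc2 | hc2
      · refine (hdir' T hc1 hc2).trans ?_
        linarith
      · -- long windows
        obtain ⟨T1, hT1⟩ : ∃ T1 : ℕ, T1 = ⌊(x1 + 1) / V⌋₊ := ⟨_, rfl⟩
        have k1 : T1 * V ≤ x1 + 1 := by
          have := Nat.floor_le (show 0 ≤ (x1 + 1) / V by positivity)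
          rw [← hT1, le_div_iff₀ hV0] at this
          exact this
        have k2 : x1 ≤ T1 * V := by
          have := Nat.lt_floor_add_one ((x1 + 1) / V)
          rw [← hT1, div_lt_iff₀ hV0] at this
          nlinarith
        have hT1T : T1 ≤ T := by
          have : (T1 : ℝ) * V < T * V := by linarith
          have := lt_of_mul_lt_mul_right this hV0.le
          exact_mod_cast this.le
        have k3 := (abs_le.1 (hdir' T1 (by linarith) k1)).1
        have k4 := hmono T1 T hT1T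
        have k5 := hle T
        have k6 := (abs_le.1 hpat).2
        have k7 : Ck m (T1 * V) ≤ e := (Ck_anti m x1 _ (by linarith) k2).trans hx1a.le
        have k8 : Ck m (T * V) ≤ e := (Ck_anti m x1 _ (by linarith) (by linarith)).trans hx1a.le
        have k9 : B * (1 - Ck m (T * V)) / A = B / A - B * Ck m (T * V) / A := by ring
        have k10 : B * (1 - Ck m (T1 * V)) / A = B / A - B * Ck m (T1 * V) / A := by ring
        have k11 : B * Ck m (T * V) / A ≤ B * e := (hdivA _ hCk0).trans (mul_le_mul_of_nonneg_left k8 hB0)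
        have k12 : B * Ck m (T1 * V) / A ≤ B * e :=
          (hdivA _ (Ck_nonneg m _ (by linarith))).trans (mul_le_mul_of_nonneg_left k7 hB0)
        have k13 : 0 ≤ B * Ck m (T * V) / A := div_nonneg (mul_nonneg hB0 hCk0) (by linarith)
        rw [k9]
        rw [k10] at k3
        rw [abs_le]
        constructor <;> nlinarith
  rw [hcnt] at goal'
  exact goal'

end Pool.Agent.Helper32K9.Joint
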