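import Pool.Agent.Helper32K9.Joint.Poly

/-!
# The joint law of the residues and the distances: change of variables
-/

set_option autoImplicit false

namespace Pool.Agent.Helper32K9.Joint

open Polynomial Finset Filter
open Pool.Agent.W123.RP Pool.Agent.H373R2.T7 Pool.Agent.W123.RU Pool.Agent.W123.RU.Poly
open Pool.Agent.TH464.PW Pool.Agent.TH464.PO Pool.Agent.V11146.MK

/-- `g` and the `k` elements of `S` after `g` have the classes `a 0, …, a k`, and the distance to the last one,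
times `d`, is at most `x` -/
def RunsX (S : ℕ → Prop) (κ : ℕ → ℕ) (k : ℕ) (a : ℕ → ℕ) (x d : ℝ) (g : ℕ) : Prop :=
  ∃ n : ℕ → ℕ, n 0 = g ∧ Consecutive S k n ∧ (∀ i ≤ k, κ (n i) = a i) ∧ ((n k : ℝ) - g) * d ≤ x

lemma runsX_iff (S : ℕ → Prop) (κ : ℕ → ℕ) (k : ℕ) (a : ℕ → ℕ) (x d : ℝ) (g : ℕ) (hx : 0 ≤ x) (hd : 0 < d) :
    RunsX S κ k a x d g ↔ RunsW S κ k a (g + ⌊x / d⌋₊) g := by
  unfold RunsX RunsW
  apply exists_congr
  intro n
  constructor
  · rintro ⟨h1, h2, h3, h4⟩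
    refine ⟨h1, h2, h3, ?_⟩
    have hle : g ≤ n k := by
      rw [← h1]
      exact chain_le h2 0 k le_rfl (Nat.zero_le _)
    have h5 : ((n k - g : ℕ) : ℝ) ≤ x / d := by
      rw [Nat.cast_sub hle, le_div_iff₀ hd]
      exact h4
    have h6 := Nat.le_floor h5
    omega
  · rintro ⟨h1, h2, h3, h4⟩
    refine ⟨h1, h2, h3, ?_⟩
    rw [← le_div_iff₀ hd]
    have h5 : (n k : ℝ) ≤ g + ⌊x / d⌋₊ := by exact_mod_cast h4
    have h6 := Nat.floor_le (show 0 ≤ x / d by positivity)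
    linarith

open Classical in
/-- **Relative form**: residues and distances of the consecutive elements of `{M m + c : G_y m}`. -/
theorem rel_joint {ι : Type} [Fintype ι] [Nonempty ι] (f : ι → ℤ[X]) (hf : Sys f) (hT : NoTr f) (l k : ℕ)
    (hl : l.Prime) (hk : 1 ≤ k) (M c : ℕ) (hM : 0 < M) (S : ℕ → ℕ → Prop) (y1 : ℕ)
    (hS : ∀ y, y1 ≤ y → ∀ n, S y n ↔ ∃ m, n = M * m + c ∧ Sf (Q f) y m)
    (κ enc : ℕ → ℕ) (cl : Finset ℕ)
    (hκ : ∀ b ∈ cl, ∀ m, κ (M * m + c) = b ↔ m % l = enc b) (henc : ∀ b ∈ cl, enc b ∈ cls (Q f) l)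
    (dens : ℕ → ℝ) (hdens : ∀ y, y1 ≤ y → dens y * M = Vq (Q f) y)
    (ε : ℝ) (hε : 0 < ε) :
    ∃ K y0 : ℕ, ∀ y : ℕ, y0 ≤ y → ∀ Z Y : ℕ, y ^ K ≤ Y → (c ≤ Z ∨ ¬ S y c) →
      0 < ((Ioc Z (Z + Y)).filter (S y)).card ∧
      ∀ a : ℕ → ℕ, (∀ i ≤ k, a i ∈ cl) → ∀ x : ℝ, 0 ≤ x →
        |(((Ioc Z (Z + Y)).filter (fun g => RunsX (S y) κ k a x (dens y) g)).card : ℝ) -
          ((Ioc Z (Z + Y)).filter (S y)).card * (1 - Ck k x) / ((cls (Q f) l).card : ℝ) ^ (k + 1)| ≤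
          ε * ((Ioc Z (Z + Y)).filter (S y)).card := by
  obtain ⟨c0, hc0, hQ⟩ := exists_c f hf
  obtain ⟨A, hA⟩ : ∃ A, A = (cls (Q f) l).card := ⟨_, rfl⟩
  have hA1 : 1 ≤ A := by
    have h1 := card_cls (Q f) l
    have h2 := Poly.adm f hf l hl
    omega
  have hAr : (1 : ℝ) ≤ A := by exact_mod_cast hA1
  obtain ⟨e, he⟩ : ∃ e : ℝ, e = min (1 / (2 * (A : ℝ))) (ε / (8 * (A : ℝ))) := ⟨_, rfl⟩
  have he0 : 0 < e := by rw [he]; positivity
  have he1 : A * e ≤ 1 / 2 := by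
    have : e ≤ 1 / (2 * A) := by rw [he]; exact min_le_left _ _
    rw [le_div_iff₀ (by positivity)] at this
    linarith
  have he2 : A * e ≤ ε / 8 := by
    have : e ≤ ε / (8 * A) := by rw [he]; exact min_le_right _ _
    rw [le_div_iff₀ (by positivity)] at this
    linarith
  obtain ⟨K1, y01, h1⟩ := poly_pat_y f hf hT l 0 hl e he0
  obtain ⟨K2, y02, h2⟩ := poly_joint f hf hT l k hl hk e he0
  obtain ⟨y03, hVs⟩ := V_small f hf e he0
  refine ⟨K1 + K2 + 1, y01 + y02 + y03 + y1 + M + c + l + 1, ?_⟩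
  intro y hy Z Y hyY hcZ
  have hy1 : 1 ≤ y := by omega
  have hly : l ≤ y := by omega
  obtain ⟨φ, hφdef⟩ : ∃ φ : ℕ → ℕ, φ = fun m => M * m + c := ⟨_, rfl⟩
  have hφ : StrictMono φ := by
    intro u v huv
    rw [hφdef]
    simp only
    have := Nat.mul_lt_mul_of_pos_left huv hM
    omega
  have hSy : ∀ n, S y n ↔ ∃ m, n = φ m ∧ Sf (Q f) y m := by
    intro n
    rw [hφdef]
    exact hS y (by omega) n
  obtain ⟨Z', hZ'⟩ : ∃ Z', Z' = (Z - c) / M := ⟨_, rfl⟩
  obtain ⟨W', hW'⟩ : ∃ W', W' = (Z + Y - c) / M := ⟨_, rfl⟩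
  have hZW : Z' ≤ W' := by
    rw [hZ', hW']
    exact Nat.div_le_div_right (by omega)
  obtain ⟨Y', hY'⟩ : ∃ Y', W' = Z' + Y' := ⟨W' - Z', by omega⟩
  have hbig : y ^ (K1 + K2) ≤ Y' := by
    have h3 : M * y ^ (K1 + K2) + c ≤ Y := by
      have h4 : 1 ≤ y ^ (K1 + K2) := Nat.one_le_pow _ _ hy1
      calc M * y ^ (K1 + K2) + c ≤ M * y ^ (K1 + K2) + c * y ^ (K1 + K2) := by
            have := Nat.le_mul_of_pos_right c h4
            omega
        _ = (M + c) * y ^ (K1 + K2) := by ring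
        _ ≤ y * y ^ (K1 + K2) := Nat.mul_le_mul_right _ (by omega)
        _ = y ^ (K1 + K2 + 1) := by ring
        _ ≤ Y := hyY
    have h5 : Z' + y ^ (K1 + K2) ≤ W' := by
      rw [hZ', hW', Nat.le_div_iff_mul_le hM]
      have h6 : (Z - c) / M * M ≤ Z - c := Nat.div_mul_le_self _ _
      calc ((Z - c) / M + y ^ (K1 + K2)) * M = (Z - c) / M * M + M * y ^ (K1 + K2) := by ring
        _ ≤ Z + Y - c := by omega
    omega
  have hmem : ∀ m, Sf (Q f) y m → (φ m ∈ Ioc Z (Z + Y) ↔ m ∈ Ioc Z' (Z' + Y')) := by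
    intro m hm
    rw [← hY', mem_Ioc, mem_Ioc]
    have hφm : φ m = M * m + c := by rw [hφdef]
    rcases Nat.eq_zero_or_pos m with rfl | hm0
    · have hc : S y c := (hSy c).2 ⟨0, by rw [hφm]; ring, hm⟩
      have hcZ' : c ≤ Z := by
        rcases hcZ with h | h
        · exact h
        · exact absurd hc h
      rw [hφm, mul_zero, zero_add]
      constructor
      · rintro ⟨h, _⟩
        omega
      · rintro ⟨h, _⟩
        omega
    · rw [hφm, hZ', hW', Nat.div_lt_iff_lt_mul hM, Nat.le_div_iff_mul_le hM]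
      have h7 : 0 < M * m := Nat.mul_pos hM hm0
      rw [mul_comm m M]
      omega
  have hcard : ∀ (P P' : ℕ → Prop) (i1 : DecidablePred P) (i2 : DecidablePred P'), (∀ m, P (φ m) ↔ P' m) → (∀ n, P n → S y n) → (∀ m, P' m → Sf (Q f) y m) →
      ((Ioc Z (Z + Y)).filter P).card = ((Ioc Z' (Z' + Y')).filter P').card := by
    intro P P' i1 i2 h3 h4 h5
    symm
    apply Finset.card_bij (fun m _ => φ m)
    · intro m hm
      rw [mem_filter] at hm ⊢
      exact ⟨(hmem m (h5 m hm.2)).2 hm.1, (h3 m).2 hm.2⟩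
    · intro u _ v _ huv
      exact hφ.injective huv
    · intro n hn
      rw [mem_filter] at hn
      obtain ⟨m, rfl, hG⟩ := (hSy n).1 (h4 n hn.2)
      exact ⟨m, mem_filter.2 ⟨(hmem m hG).1 hn.1, (h3 m).1 hn.2⟩, rfl⟩
  -- the total number
  obtain ⟨tot, htot⟩ : ∃ tot, tot = ((Ioc Z (Z + Y)).filter (S y)).card := ⟨_, rfl⟩
  obtain ⟨B, hB⟩ : ∃ B : ℝ, B = Y' * Vq (Q f) y := ⟨_, rfl⟩
  have hV0 : 0 < Vq (Q f) y := Vq_pos (Q f) (fun p hp => Poly.adm f hf p hp) y
  have hY'1 : 1 ≤ Y' := (Nat.one_le_pow _ _ hy1).trans hbig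
  have hB0 : 0 < B := by
    rw [hB]
    have : (0 : ℝ) < Y' := by exact_mod_cast hY'1
    positivity
  have htot1 : tot = ((Ioc Z' (Z' + Y')).filter (Sf (Q f) y)).card := by
    rw [htot]
    apply hcard (S y) (Sf (Q f) y) _ _
    · intro m
      constructor
      · intro h
        obtain ⟨m', h6, h7⟩ := (hSy _).1 h
        rwa [hφ.injective h6]
      · intro h
        exact (hSy _).2 ⟨m, rfl, h⟩
    · exact fun _ h => h
    · exact fun _ h => h
  have htot2 : (tot : ℝ) = ∑ a ∈ cls (Q f) l, ((Oa (Q f) l a y Z' Y').card : ℝ) := by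
    rw [htot1, ← Nat.cast_sum]
    congr 1
    rw [Finset.card_eq_sum_card_fiberwise (f := fun g => g % l) (t := cls (Q f) l)]
    · apply Finset.sum_congr rfl
      intro a _
      unfold Oa
      rw [Finset.filter_filter]
    · intro g hg
      rw [Finset.mem_coe, mem_filter] at hg
      exact mod_mem_cls (Q f) c0 hQ l y g hl hly hg.2
  have hone : ∀ a ∈ cls (Q f) l, |((Oa (Q f) l a y Z' Y').card : ℝ) - B / A| ≤ e * B := by
    intro a ha
    have h3 := h1 y (by omega) Z' Y' ((Nat.pow_le_pow_right hy1 (by omega)).trans hbig) a ha [] (by simp [Ls])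
    rw [← hB, ← hA, zero_add, pow_one] at h3
    have h4 : (Oa (Q f) l a y Z' Y').filter (fun g => Pat (Sf (Q f) y) l [] g) = Oa (Q f) l a y Z' Y' := by
      apply Finset.filter_true_of_mem
      intro g _
      trivial
    rwa [h4] at h3
  have htot3 : |(tot : ℝ) - B| ≤ A * e * B := by
    have h3 : B = ∑ a ∈ cls (Q f) l, B / A := by
      rw [Finset.sum_const, ← hA, nsmul_eq_mul]
      field_simp
    rw [htot2]
    conv_lhs => rw [h3]
    rw [← Finset.sum_sub_distrib]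
    refine (Finset.abs_sum_le_sum_abs _ _).trans ?_
    refine (Finset.sum_le_card_nsmul _ _ _ hone).trans (le_of_eq ?_)
    rw [← hA, nsmul_eq_mul]
    ring
  have hB2 : B ≤ 2 * tot := by
    have := (abs_le.1 htot3).1
    nlinarith
  rw [← htot]
  refine ⟨?_, ?_⟩
  · have : (0 : ℝ) < tot := by linarith
    exact_mod_cast this
  intro a ha x hx
  have hb0 := henc (a 0) (ha 0 (Nat.zero_le _))
  have hlmem : (lst a k).map enc ∈ Ls (cls (Q f) l) k := by
    rw [mem_Ls, List.length_map, lst_length]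
    refine ⟨rfl, ?_⟩
    intro b hb
    rw [List.mem_map] at hb
    obtain ⟨b', hb', rfl⟩ := hb
    obtain ⟨i, _, h5, rfl⟩ := mem_lst a k b' hb'
    exact henc _ (ha i h5)
  have hVV := hdens y (by omega)
  have hMr : (0 : ℝ) < M := by exact_mod_cast hM
  obtain ⟨d, hd⟩ : ∃ d, d = dens y := ⟨_, rfl⟩
  have hd0 : 0 < d := by
    by_contra hcon
    rw [not_lt] at hcon
    rw [← hd] at hVV
    nlinarith
  obtain ⟨T, hTdef⟩ : ∃ T : ℕ, T = ⌊x / Vq (Q f) y⌋₊ := ⟨_, rfl⟩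
  have hTL : T = ⌊x / d⌋₊ / M := by
    rw [hTdef, ← hVV, ← hd, ← Nat.floor_div_natCast, div_div]
  have hTV1 : T * Vq (Q f) y ≤ x := by
    have := Nat.floor_le (show 0 ≤ x / Vq (Q f) y by positivity)
    rw [← hTdef, le_div_iff₀ hV0] at this
    exact this
  have hTV2 : x ≤ T * Vq (Q f) y + e := by
    have := Nat.lt_floor_add_one (x / Vq (Q f) y)
    rw [← hTdef, div_lt_iff₀ hV0] at this
    have h4 := hVs y (by omega)
    nlinarith
  have h3 := h2 y (by omega) Z' Y' ((Nat.pow_le_pow_right hy1 (by omega)).trans hbig) T (enc (a 0)) hb0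
    ((lst a k).map enc) hlmem
  rw [← hB, ← hA] at h3
  have hcnt : ((Ioc Z (Z + Y)).filter (fun g => RunsX (S y) κ k a x (dens y) g)).card =
      ((Oa (Q f) l (enc (a 0)) y Z' Y').filter (fun g => PatW (Sf (Q f) y) (fun n => n % l) (g + T)
        ((lst a k).map enc) g)).card := by
    unfold Oa
    rw [Finset.filter_filter]
    apply hcard
    · intro m
      rw [← hd, runsX_iff _ _ _ _ _ _ _ hx hd0, runsW_iff _ _ _ _ _ _ (Nat.le_add_right _ _),
        patW_map (S y) (Sf (Q f) y) κ (fun n => n % l) φ hφ hSy enc (φ m + ⌊x / d⌋₊) (m + T) (by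
        intro x'
        rw [hφdef, hTL]
        simp only
        have e1 : M * x' + c ≤ M * m + c + ⌊x / d⌋₊ ↔ x' * M ≤ M * m + ⌊x / d⌋₊ := by
          rw [mul_comm x' M]
          omega
        rw [e1, ← Nat.le_div_iff_mul_le hM, Nat.mul_add_div hM]) (lst a k) (by
        intro b hb m
        obtain ⟨i, _, h5, rfl⟩ := mem_lst a k b hb
        rw [hφdef]
        exact hκ _ (ha i h5) m) m]
      have h6 : S y (φ m) ↔ Sf (Q f) y m := by
        constructor
        · intro h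
          obtain ⟨m', h6, h7⟩ := (hSy _).1 h
          rwa [hφ.injective h6]
        · intro h
          exact (hSy _).2 ⟨m, rfl, h⟩
      have h7 : κ (φ m) = a 0 ↔ m % l = enc (a 0) := by
        rw [hφdef]
        exact hκ _ (ha 0 (Nat.zero_le _)) m
      rw [h6, h7]
      tauto
    · rintro n ⟨u, rfl, h5, _⟩
      exact h5.1 0 (Nat.zero_le _)
    · intro m hm
      exact hm.1.1
  rw [hcnt]
  have hApow : (1 : ℝ) ≤ (A : ℝ) ^ (k + 1) := one_le_pow₀ hAr
  have hTV0 : 0 ≤ (T : ℝ) * Vq (Q f) y := by positivity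
  have hCa := Ck_nonneg k x hx
  have hCb := Ck_le_one k x hx
  have hC1 := Ck_anti k _ _ hTV0 hTV1
  have hC2 := (Ck_lip k (T * Vq (Q f) y) (x - T * Vq (Q f) y) hTV0 (by linarith)).2
  have hC3 : T * Vq (Q f) y + (x - T * Vq (Q f) y) = x := by ring
  rw [hC3] at hC2
  -- the change of the argument
  have h7 : |B * (1 - Ck k (T * Vq (Q f) y)) / (A : ℝ) ^ (k + 1) - B * (1 - Ck k x) / (A : ℝ) ^ (k + 1)| ≤ e * B := by
    rw [← sub_div, abs_div, abs_of_pos (by linarith : (0 : ℝ) < (A : ℝ) ^ (k + 1))]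
    refine (div_le_self (abs_nonneg _) hApow).trans ?_
    have h8 : B * (1 - Ck k (T * Vq (Q f) y)) - B * (1 - Ck k x) = B * (Ck k x - Ck k (T * Vq (Q f) y)) := by ring
    rw [h8, abs_mul, abs_of_pos hB0, mul_comm]
    apply mul_le_mul_of_nonneg_right _ hB0.le
    rw [abs_le]
    constructor <;> linarith
  have h8 : |(tot : ℝ) * (1 - Ck k x) / (A : ℝ) ^ (k + 1) - B * (1 - Ck k x) / (A : ℝ) ^ (k + 1)| ≤ A * e * B := by
    rw [← sub_div, abs_div, abs_of_pos (by linarith : (0 : ℝ) < (A : ℝ) ^ (k + 1))]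
    refine (div_le_self (abs_nonneg _) hApow).trans ?_
    rw [← sub_mul, abs_mul, abs_of_nonneg (by linarith : 0 ≤ 1 - Ck k x)]
    have h9 : |(tot : ℝ) - B| * (1 - Ck k x) ≤ (A * e * B) * 1 :=
      mul_le_mul htot3 (by linarith) (by linarith) (by positivity)
    linarith
  have h9 : e * B ≤ A * e * B := by
    have : 0 ≤ e * B := by positivity
    nlinarith
  have h10 : A * e * B ≤ ε / 8 * (2 * tot) := by
    apply mul_le_mul he2 hB2 hB0.le (by positivity)
  rw [← hA]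
  rw [abs_le] at h3 h7 h8 ⊢
  constructor <;> linarith [h3.1, h3.2, h7.1, h7.2, h8.1, h8.2]

end Pool.Agent.Helper32K9.Joint
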