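import Pool.Agent.Helper32K9.Joint.Abs

/-!
# Patterns of consecutive elements inside a window
-/

set_option autoImplicit false

namespace Pool.Agent.Helper32K9.Joint

open Finset Filter
open Pool.Agent.V11146.MK

/-- after `g`, the next elements lie in the classes of the list and are at most `U` -/
def PatW (S : ℕ → Prop) (κ : ℕ → ℕ) (U : ℕ) : List ℕ → ℕ → Prop
  | [], _ => True
  | b :: β, g => ∃ g', g < g' ∧ g' ≤ U ∧ S g' ∧ (∀ n, g < n → n < g' → ¬ S n) ∧ κ g' = b ∧ PatW S κ U β g'

/-- `g` and the `k` elements of `S` after `g` have the classes `a 0, …, a k`, and the last one is at most `U` -/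
def RunsW (S : ℕ → Prop) (κ : ℕ → ℕ) (k : ℕ) (a : ℕ → ℕ) (U g : ℕ) : Prop :=
  ∃ n : ℕ → ℕ, n 0 = g ∧ Consecutive S k n ∧ (∀ i ≤ k, κ (n i) = a i) ∧ n k ≤ U

lemma chain_le {S : ℕ → Prop} {k : ℕ} {n : ℕ → ℕ} (h : Consecutive S k n) (i : ℕ) : ∀ j : ℕ, j ≤ k → i ≤ j → n i ≤ n j := by
  intro j
  induction j with
  | zero => intro _ h2; rw [Nat.le_zero.1 h2]
  | succ j ih =>
    intro h1 h2
    rcases Nat.eq_or_lt_of_le h2 with h3 | h3
    · rw [h3]
    · exact (ih (by omega) (by omega)).trans (h.2 j (by omega)).1.le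

lemma runsW_iff (S : ℕ → Prop) (κ : ℕ → ℕ) (k : ℕ) (a : ℕ → ℕ) (U g : ℕ) (hg : g ≤ U) :
    RunsW S κ k a U g ↔ S g ∧ κ g = a 0 ∧ PatW S κ U (lst a k) g := by
  induction k generalizing a g with
  | zero =>
    constructor
    · rintro ⟨n, h1, h2, h3, _⟩
      refine ⟨?_, ?_, trivial⟩
      · rw [← h1]
        exact h2.1 0 le_rfl
      · rw [← h1]
        exact h3 0 le_rfl
    · rintro ⟨h1, h2, _⟩
      refine ⟨fun _ => g, rfl, ⟨fun _ _ => h1, fun i hi => absurd hi (Nat.not_lt_zero i)⟩, ?_, hg⟩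
      intro i hi
      have : i = 0 := by omega
      rw [this]
      exact h2
  | succ k ih =>
    simp only [lst]
    constructor
    · rintro ⟨n, h1, h2, h3, h4⟩
      have hle : n 1 ≤ U := (chain_le h2 1 (k + 1) le_rfl (by omega)).trans h4
      refine ⟨?_, ?_, n 1, ?_, hle, h2.1 1 (by omega), ?_, h3 1 (by omega), ?_⟩
      · rw [← h1]
        exact h2.1 0 (by omega)
      · rw [← h1]
        exact h3 0 (by omega)
      · rw [← h1]
        exact (h2.2 0 (by omega)).1
      · rw [← h1]
        exact (h2.2 0 (by omega)).2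
      · refine ((ih (fun i => a (i + 1)) (n 1) hle).1 ⟨fun i => n (i + 1), rfl, ⟨?_, ?_⟩, ?_, h4⟩).2.2
        · intro i hi
          exact h2.1 (i + 1) (by omega)
        · intro i hi
          exact h2.2 (i + 1) (by omega)
        · intro i hi
          exact h3 (i + 1) (by omega)
    · rintro ⟨h1, h2, g', h3, h30, h4, h5, h6, h7⟩
      obtain ⟨n, e1, e2, e3, e4⟩ := (ih (fun i => a (i + 1)) g' h30).2 ⟨h4, h6, h7⟩
      refine ⟨fun i => if i = 0 then g else n (i - 1), by simp, ⟨?_, ?_⟩, ?_, ?_⟩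
      · intro i hi
        rcases Nat.eq_zero_or_pos i with rfl | h0
        · simpa using h1
        · simp only [Nat.pos_iff_ne_zero.1 h0, if_false]
          exact e2.1 (i - 1) (by omega)
      · intro i hi
        rcases Nat.eq_zero_or_pos i with rfl | h0
        · simp only [if_true, zero_add, one_ne_zero, if_false, Nat.sub_self, e1]
          exact ⟨h3, h5⟩
        · simp only [Nat.pos_iff_ne_zero.1 h0, if_false, Nat.succ_ne_zero, Nat.add_sub_cancel]
          have := e2.2 (i - 1) (by omega)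
          rwa [show i - 1 + 1 = i by omega] at this
      · intro i hi
        rcases Nat.eq_zero_or_pos i with rfl | h0
        · simpa using h2
        · simp only [Nat.pos_iff_ne_zero.1 h0, if_false]
          have := e3 (i - 1) (by omega)
          rw [this]
          simp only
          congr 1
          omega
      · simp only [Nat.succ_ne_zero, if_false, Nat.add_sub_cancel]
        exact e4

/-- change of variables -/
lemma patW_map (S G : ℕ → Prop) (κ κ' : ℕ → ℕ) (φ : ℕ → ℕ) (hφ : StrictMono φ)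
    (hS : ∀ n, S n ↔ ∃ m, n = φ m ∧ G m) (enc : ℕ → ℕ) (U U' : ℕ) (hU : ∀ x, φ x ≤ U ↔ x ≤ U') (β : List ℕ)
    (hκ : ∀ b ∈ β, ∀ m, κ (φ m) = b ↔ κ' m = enc b) (m : ℕ) :
    PatW S κ U β (φ m) ↔ PatW G κ' U' (β.map enc) m := by
  induction β generalizing m with
  | nil => exact Iff.rfl
  | cons b β ih =>
    simp only [List.map_cons]
    unfold PatW
    constructor
    · rintro ⟨g', h1, h10, h2, h3, h4, h5⟩
      obtain ⟨m', rfl, hG⟩ := (hS g').1 h2
      refine ⟨m', hφ.lt_iff_lt.1 h1, (hU m').1 h10, hG, ?_, (hκ b (by simp) m').1 h4,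
        (ih (fun b' hb' => hκ b' (by simp [hb'])) m').1 h5⟩
      intro n hn1 hn2 hGn
      exact h3 (φ n) (hφ hn1) (hφ hn2) ((hS _).2 ⟨n, rfl, hGn⟩)
    · rintro ⟨m', h1, h10, h2, h3, h4, h5⟩
      refine ⟨φ m', hφ h1, (hU m').2 h10, (hS _).2 ⟨m', rfl, h2⟩, ?_, (hκ b (by simp) m').2 h4,
        (ih (fun b' hb' => hκ b' (by simp [hb'])) m').2 h5⟩
      intro n hn1 hn2 hSn
      obtain ⟨u, rfl, hG⟩ := (hS n).1 hSn
      exact h3 u (hφ.lt_iff_lt.1 hn1) (hφ.lt_iff_lt.1 hn2) hG

open Classical in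
/-- the first elements of the window -/
lemma patW_of_pre (G : ℕ → Prop) (l : ℕ) (β : List ℕ) (g s T : ℕ)
    (h : pre β (res (fun h => (g + h) % l) ((Ioc s T).filter (fun h => G (g + h)))) = true) :
    PatW G (fun n => n % l) (g + T) β (g + s) := by
  induction β generalizing s with
  | nil => trivial
  | cons b β ih =>
    obtain ⟨W, hW⟩ : ∃ W, W = (Ioc s T).filter (fun h => G (g + h)) := ⟨_, rfl⟩
    rw [← hW] at h
    rcases W.eq_empty_or_nonempty with h0 | h0
    · rw [h0, res_empty] at h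
      simp [pre] at h
    · obtain ⟨u, hu, humin⟩ : ∃ u ∈ W, ∀ x ∈ W, u ≤ x := ⟨W.min' h0, W.min'_mem h0, fun x hx => W.min'_le x hx⟩
      have hu' := hu
      rw [hW, mem_filter, mem_Ioc] at hu'
      have hWu : W = insert u ((Ioc u T).filter (fun h => G (g + h))) := by
        ext x
        rw [mem_insert, mem_filter, mem_Ioc]
        constructor
        · intro hx
          have h1 := humin x hx
          rw [hW, mem_filter, mem_Ioc] at hx
          rcases Nat.eq_or_lt_of_le h1 with h2 | h2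
          · exact Or.inl h2.symm
          · exact Or.inr ⟨⟨h2, hx.1.2⟩, hx.2⟩
        · rintro (rfl | hx)
          · exact hu
          · rw [hW, mem_filter, mem_Ioc]
            exact ⟨⟨by omega, hx.1.2⟩, hx.2⟩
      rw [hWu, res_insert _ u _ (fun x hx => (mem_Ioc.1 (mem_filter.1 hx).1).1)] at h
      simp only [pre, Bool.and_eq_true, beq_iff_eq] at h
      refine ⟨g + u, by omega, by omega, hu'.2, ?_, h.1.symm, ih u h.2⟩
      intro n hn1 hn2 hGn
      have h3 : n - g ∈ W := by
        rw [hW, mem_filter, mem_Ioc, show g + (n - g) = n by omega]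
        exact ⟨by omega, hGn⟩
      have := humin _ h3
      omega

open Classical in
lemma pre_of_patW (G : ℕ → Prop) (l : ℕ) (β : List ℕ) (g s T : ℕ)
    (h : PatW G (fun n => n % l) (g + T) β (g + s)) :
    pre β (res (fun h => (g + h) % l) ((Ioc s T).filter (fun h => G (g + h)))) = true := by
  induction β generalizing s with
  | nil => simp [pre]
  | cons b β ih =>
    obtain ⟨g', h1, h10, h2, h3, h4, h5⟩ := h
    obtain ⟨W, hW⟩ : ∃ W, W = (Ioc s T).filter (fun h => G (g + h)) := ⟨_, rfl⟩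
    rw [← hW]
    obtain ⟨u, hu⟩ : ∃ u, g' = g + u := ⟨g' - g, by omega⟩
    subst hu
    have hWu : W = insert u ((Ioc u T).filter (fun h => G (g + h))) := by
      ext z
      rw [mem_insert, mem_filter, mem_Ioc]
      constructor
      · intro hz
        rw [hW, mem_filter, mem_Ioc] at hz
        rcases Nat.lt_trichotomy z u with h6 | h6 | h6
        · exact absurd hz.2 (h3 (g + z) (by omega) (by omega))
        · exact Or.inl h6
        · exact Or.inr ⟨⟨h6, hz.1.2⟩, hz.2⟩
      · rintro (rfl | hz)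
        · rw [hW, mem_filter, mem_Ioc]
          exact ⟨⟨by omega, by omega⟩, h2⟩
        · rw [hW, mem_filter, mem_Ioc]
          exact ⟨⟨by omega, hz.1.2⟩, hz.2⟩
    rw [hWu, res_insert _ u _ (fun x hx => (mem_Ioc.1 (mem_filter.1 hx).1).1)]
    simp only [pre, Bool.and_eq_true, beq_iff_eq]
    exact ⟨h4.symm, ih u h5⟩

open Classical in
lemma pre_iff_patW (G : ℕ → Prop) (l : ℕ) (β : List ℕ) (g T : ℕ) :
    pre β (res (fun h => (g + h) % l) ((Ioc 0 T).filter (fun h => G (g + h)))) = true ↔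
      PatW G (fun n => n % l) (g + T) β g := by
  constructor
  · intro h
    have := patW_of_pre G l β g 0 T h
    rwa [add_zero] at this
  · intro h
    exact pre_of_patW G l β g 0 T (by rwa [add_zero])

end Pool.Agent.Helper32K9.Joint
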